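import Mathlib

namespace Pool.Agent.L7h39.NoCircuitEmbedding

/-- A rotation system of a graph: a permutation `next` of its darts (directed edges) that keeps the
initial vertex and permutes the darts leaving each vertex in a single cycle. By Heffter and Edmonds
these are exactly the cellular embeddings of a connected graph in oriented closed surfaces. -/
structure RotationSystem {V : Type} (G : SimpleGraph V) where
  /-- the dart following a dart in the cyclic order around its initial vertex -/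
  next : Equiv.Perm G.Dart
  fst_next : ∀ d : G.Dart, (next d).fst = d.fst
  single_cycle : ∀ d e : G.Dart, d.fst = e.fst → next.SameCycle d e

/-- Reversal of darts, as a permutation. -/
def flip {V : Type} (G : SimpleGraph V) : Equiv.Perm G.Dart where
  toFun := SimpleGraph.Dart.symm
  invFun := SimpleGraph.Dart.symm
  left_inv := SimpleGraph.Dart.symm_symm
  right_inv := SimpleGraph.Dart.symm_symm

/-- The face permutation: after traversing the dart `d`, the boundary walk of the face continues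
with the dart that follows the reversed dart in the rotation at the end vertex of `d`. The faces
(regions) of the embedding are the cycles of this permutation. -/
def RotationSystem.face {V : Type} {G : SimpleGraph V} (R : RotationSystem G) :
    Equiv.Perm G.Dart := (flip G).trans R.next

/-- The number of faces. -/
noncomputable def RotationSystem.numFaces {V : Type} {G : SimpleGraph V} (R : RotationSystem G) :
    ℕ := Nat.card (Quotient (Equiv.Perm.SameCycle.setoid R.face))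

/-- The embedding lies in the closed orientable surface of genus `g`, by Euler's formula
`V - E + F = 2 - 2 g` for a connected graph. -/
def RotationSystem.IsGenus {V : Type} {G : SimpleGraph V} (R : RotationSystem G) (g : ℕ) : Prop :=
  Nat.card V + R.numFaces + 2 * g = Nat.card G.edgeSet + 2

/-- The genus of a connected graph. -/
noncomputable def genus {V : Type} (G : SimpleGraph V) : ℕ :=
  sInf {g | ∃ R : RotationSystem G, R.IsGenus g}

/-- Some face boundary traverses an edge twice (hence once in each direction). -/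
def RotationSystem.RepeatsEdge {V : Type} {G : SimpleGraph V} (R : RotationSystem G) : Prop :=
  ∃ d : G.Dart, R.face.SameCycle d d.symm

/-! ### The graph -/

/-- neighbours -/
def nbr : Fin 16 → Finset (Fin 16) :=
  ![{1, 2, 4}, {0, 3, 7}, {0, 3, 6}, {1, 2, 12}, {0, 5, 14}, {4, 6, 7}, {2, 5, 9}, {1, 5, 8},
    {7, 9, 10}, {6, 8, 11}, {8, 11, 15}, {9, 10, 13}, {3, 13, 15}, {11, 12, 14}, {4, 13, 15},
    {10, 12, 14}]

/-- the graph -/
def G : SimpleGraph (Fin 16) where
  Adj a b := b ∈ nbr a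
  symm := ⟨by decide⟩
  loopless := ⟨by decide⟩

instance : DecidableRel G.Adj := fun a b => inferInstanceAs (Decidable (b ∈ nbr a))

/-- end vertex of a dart -/
def tg : Fin 48 → Fin 16 :=
  ![1, 2, 4, 0, 3, 7, 0, 3, 6, 1, 2, 12, 0, 5, 14, 4, 6, 7, 2, 5, 9, 1, 5, 8, 7, 9, 10, 6, 8, 11,
    8, 11, 15, 9, 10, 13, 3, 13, 15, 11, 12, 14, 4, 13, 15, 10, 12, 14]

/-- the dart number `3 v + i` -/
def mk (v : Fin 16) (i : Fin 3) : Fin 48 := ⟨3 * v.1 + i.1, by omega⟩

/-- initial vertex of a dart -/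
def src (d : Fin 48) : Fin 16 := ⟨d.1 / 3, by omega⟩

/-- position of a dart -/
def idx (d : Fin 48) : Fin 3 := ⟨d.1 % 3, by omega⟩

theorem mk_src_idx (d : Fin 48) : mk (src d) (idx d) = d := by
  apply Fin.ext; simp only [mk, src, idx]; omega

theorem src_mk (v : Fin 16) (i : Fin 3) : src (mk v i) = v := by
  apply Fin.ext; simp only [mk, src]; omega

theorem idx_mk (v : Fin 16) (i : Fin 3) : idx (mk v i) = i := by
  apply Fin.ext; simp only [mk, idx]; omega

/-- reversal table -/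
def rvF : Fin 48 → Fin 48 :=
  ![3, 6, 12, 0, 9, 21, 1, 10, 18, 4, 7, 36, 2, 15, 42, 13, 19, 22, 8, 16, 27, 5, 17, 24, 23, 28,
    30, 20, 25, 33, 26, 34, 45, 29, 31, 39, 11, 40, 46, 35, 37, 43, 14, 41, 47, 32, 38, 44]

theorem adj_dt : ∀ d : Fin 48, G.Adj (src d) (tg d) := by decide

/-- the dart with a number -/
def dt (d : Fin 48) : G.Dart := ⟨(src d, tg d), adj_dt d⟩

theorem dt_injective : Function.Injective dt := by
  have h : ∀ a b : Fin 48, src a = src b → tg a = tg b → a = b := by decide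
  intro a b hab
  refine h a b ?_ ?_
  · exact congrArg (fun x : G.Dart => x.fst) hab
  · exact congrArg (fun x : G.Dart => x.snd) hab

theorem dt_surjective : Function.Surjective dt := by
  have h : ∀ a b : Fin 16, G.Adj a b → ∃ d : Fin 48, src d = a ∧ tg d = b := by decide
  rintro ⟨⟨a, b⟩, hab⟩
  obtain ⟨d, h1, h2⟩ := h a b hab
  refine ⟨d, ?_⟩
  apply SimpleGraph.Dart.ext
  exact Prod.ext h1 h2

theorem dt_symm (d : Fin 48) : (dt d).symm = dt (rvF d) := by
  have h : ∀ d : Fin 48, src (rvF d) = tg d ∧ tg (rvF d) = src d := by decide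
  apply SimpleGraph.Dart.ext
  exact Prod.ext (h d).1.symm (h d).2.symm

theorem fst_dt (d : Fin 48) : (dt d).fst = src d := rfl

/-! ### Numerical model of the face permutation -/

/-- reversal, as a digit table -/
def rv (d : ℕ) : ℕ :=
  (346585684360213616271195404813611904561373265413141457205886048705548423035451672150403
    >>> (6 * d)) % 64

/-- face permutation for the sign mask `m` -/
def nx (m d : ℕ) : ℕ :=
  bif m.testBit (rv d / 3) then (bif rv d % 3 == 2 then rv d - 2 else rv d + 1)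
  else (bif rv d % 3 == 0 then rv d + 2 else rv d - 1)

/-- rotation for a sign vector -/
def rotF (s : Fin 16 → Bool) (r : Fin 48) : Fin 48 :=
  bif s (src r) then mk (src r) (idx r + 1) else mk (src r) (idx r + 2)

/-- face permutation for a sign vector -/
def nxF (s : Fin 16 → Bool) (d : Fin 48) : Fin 48 := rotF s (rvF d)

theorem rv_eq : ∀ d : Fin 48, rv d.1 = (rvF d).1 := by decide

theorem nxF_val (s : Fin 16 → Bool) (m : ℕ) (hm : ∀ v : Fin 16, m.testBit v.1 = s v) (d : Fin 48) :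
    (nxF s d).1 = nx m d.1 := by
  have h1 : ∀ r : Fin 48, (mk (src r) (idx r + 1)).1 = bif r.1 % 3 == 2 then r.1 - 2 else r.1 + 1 := by
    decide
  have h2 : ∀ r : Fin 48, (mk (src r) (idx r + 2)).1 = bif r.1 % 3 == 0 then r.1 + 2 else r.1 - 1 := by
    decide
  unfold nxF rotF nx
  rw [rv_eq, ← h1, ← h2]
  have h3 : m.testBit ((rvF d).1 / 3) = s (src (rvF d)) := hm (src (rvF d))
  rw [h3]
  cases s (src (rvF d)) <;> rfl

/-- following the face from `e`, through vertices below `k` only, we meet `t` before `d0` -/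
def walk (m k t d0 : ℕ) : ℕ → ℕ → Bool
  | 0, _ => false
  | f + 1, e => bif Nat.blt (rv e / 3) k then
      (bif nx m e == t then true else bif nx m e == d0 then false else walk m k t d0 f (nx m e))
      else false

/-- no smaller dart on the face of `d0` -/
def mw (m d0 : ℕ) : ℕ → ℕ → Bool
  | 0, _ => true
  | f + 1, e => bif nx m e == d0 then true else bif Nat.blt (nx m e) d0 then false
      else mw m d0 f (nx m e)

/-- at most six darts are minimal on their face -/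
def few (m : ℕ) : Bool := Nat.ble ((List.range 48).countP fun d => mw m d 48 d) 6

/-- certificate trees -/
inductive T
  | l (d : ℕ)
  | f
  | n (a b : T)

/-- the certificate -/
def cert : T :=
  .n (.n (.n (.n (.n (.n (.n (.l 27) (.n (.n (.n (.l 33) (.n (.n (.l 39) (.n (.n (.n (.n .f (.l
  11)) (.l 3)) (.l 45)) (.n (.l 4) (.n (.l 47) (.l 47))))) (.n (.l 0) (.l 45)))) (.n (.l 0) (.l
  30))) (.n (.n (.n (.n (.n (.n (.l 43) (.n (.l 47) (.n .f (.l 32)))) (.n (.l 28) (.l 46))) (.l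
  20)) (.n (.l 23) (.n (.n (.l 46) (.l 17)) (.n (.n (.n (.l 32) .f) (.l 47)) (.l 43))))) (.l 5))
  (.n (.l 42) (.n (.n (.n (.n (.l 46) (.l 17)) (.n (.n (.n (.l 32) .f) (.l 47)) (.l 43))) (.l 23))
  (.n (.l 20) (.n (.n (.l 43) (.n (.l 47) (.n .f (.l 32)))) (.n (.l 4) (.l 46))))))))) (.n (.l 42)
  (.l 22))) (.n (.n (.l 22) (.l 42)) (.n (.n (.n (.n (.n (.n (.n (.n (.l 46) (.l 1)) (.n (.n (.n
  (.l 32) .f) (.l 47)) (.l 43))) (.l 20)) (.n (.l 23) (.n (.n (.l 43) (.n (.l 47) (.n .f (.l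
  32)))) (.n (.l 17) (.l 46))))) (.l 42)) (.n (.l 5) (.n (.n (.n (.n (.l 43) (.n (.l 47) (.n .f
  (.l 32)))) (.n (.l 17) (.l 46))) (.l 23)) (.n (.l 20) (.n (.n (.l 46) (.l 1)) (.n (.n (.n (.l
  32) .f) (.l 47)) (.l 43))))))) (.n (.n (.l 30) (.n (.n (.l 39) (.n (.n (.n (.l 47) (.n (.l 35)
  .f)) (.n (.l 46) (.l 22))) (.n (.l 20) (.n (.n .f (.l 35)) (.l 22))))) (.n (.n (.n (.n (.l 25)
  (.n (.l 35) .f)) (.n (.l 46) (.l 35))) (.n (.n (.l 25) (.l 46)) (.n (.n .f (.l 35)) (.l 47))))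
  (.l 45)))) (.n (.n (.n (.l 45) (.n (.n (.n (.l 31) (.n (.l 35) .f)) (.n (.l 46) (.l 35))) (.n
  (.l 29) (.n (.n .f (.l 35)) (.l 47))))) (.n (.n (.n (.n (.l 47) (.l 47)) (.l 1)) (.n (.l 45) (.n
  (.l 37) (.n (.l 11) .f)))) (.l 39))) (.l 33)))) (.l 27)))) (.l 21)) (.n (.l 12) (.n (.n (.n (.n
  (.l 24) (.n (.n (.l 33) (.n (.n (.l 39) (.n (.n (.l 46) (.n (.n (.l 14) .f) (.l 2))) (.n (.n (.l
  45) (.l 46)) (.l 43)))) (.n (.l 13) (.l 45)))) (.n (.l 13) (.l 30)))) (.l 10)) (.n (.n (.l 27)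
  (.l 6)) (.n (.n (.n (.l 30) (.l 13)) (.n (.n (.n (.l 45) (.l 13)) (.n (.n (.n (.n (.l 47) (.l
  47)) (.l 42)) (.n (.l 45) (.n (.l 15) (.n (.l 11) .f)))) (.l 39))) (.l 33))) (.l 6)))) (.n (.n
  (.n (.l 9) (.n (.n (.l 33) (.n (.n (.l 39) (.n (.n (.n (.n .f (.l 11)) (.l 15)) (.l 45)) (.n (.l
  42) (.n (.l 47) (.l 47))))) (.n (.l 13) (.l 45)))) (.n (.l 13) (.l 30)))) (.n (.l 9) (.l 27)))
  (.n (.l 3) (.n (.n (.n (.l 30) (.l 13)) (.n (.n (.n (.l 45) (.l 13)) (.n (.n (.n (.l 43) (.n (.l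
  46) (.l 45))) (.n (.n (.l 2) (.n .f (.l 14))) (.l 46))) (.l 39))) (.l 33))) (.l 24))))))) (.n
  (.n (.l 36) (.n (.n (.n (.l 27) (.n (.l 42) (.n (.n (.n (.n (.n (.n (.l 43) (.n (.n (.l 14) .f)
  (.l 28))) (.n (.n (.l 22) (.n .f (.l 14))) (.l 43))) (.l 20)) (.n (.l 23) (.n (.n (.n (.n .f (.l
  11)) (.l 21)) (.l 17)) (.n (.l 25) (.n (.l 37) (.n (.l 11) .f)))))) (.l 5)) (.n (.n (.n (.l 45)
  (.l 5)) (.n (.n (.n (.l 43) (.n (.l 46) (.l 45))) (.n (.n (.l 22) (.n .f (.l 14))) (.l 46))) (.l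
  39))) (.n (.n (.n (.n (.n (.n .f (.l 11)) (.l 21)) (.l 17)) (.n (.l 31) (.n (.l 37) (.n (.l 11)
  .f)))) (.l 23)) (.n (.l 20) (.n (.n (.l 46) (.n (.n (.l 14) .f) (.n .f (.l 32)))) (.n (.n (.l
  28) (.n .f (.l 14))) (.l 43))))))))) (.n (.n (.n (.n (.l 33) (.n (.n (.l 39) (.n (.n (.n (.n .f
  (.l 11)) (.l 21)) (.l 45)) (.n (.l 16) (.n (.l 47) (.l 47))))) (.n (.l 5) (.l 45)))) (.n (.l 5)
  (.l 30))) (.n (.n (.l 30) (.l 12)) (.n (.n (.n (.l 45) (.l 12)) (.n (.n (.n (.l 43) (.n (.l 46)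
  (.l 45))) (.n (.n (.l 8) (.n .f (.l 14))) (.l 46))) (.l 39))) (.l 33)))) (.l 22))) (.n (.n (.n
  (.n (.n (.n (.n (.n (.n (.n (.n .f (.l 11)) (.l 47)) (.n (.l 37) (.n .f (.l 32)))) (.n (.l 16)
  (.n (.l 18) (.n (.l 11) .f)))) (.l 20)) (.n (.l 23) (.n (.n (.l 43) (.n (.n (.l 14) .f) (.l
  25))) (.n (.n (.l 31) (.n .f (.l 14))) (.l 46))))) (.l 8)) (.n (.n (.n (.l 45) (.l 8)) (.n (.n
  (.n (.n (.l 47) (.l 47)) (.l 20)) (.n (.l 45) (.n (.l 18) (.n (.l 11) .f)))) (.l 39))) (.n (.n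
  (.n (.n (.l 43) (.n (.n (.l 14) .f) (.l 31))) (.n (.n (.l 25) (.n .f (.l 14))) (.l 46))) (.l
  23)) (.n (.l 20) (.n (.n (.n (.n .f (.l 11)) (.l 37)) (.l 28)) (.n (.l 16) (.n (.l 18) (.n (.l
  11) .f)))))))) (.l 24)) (.l 42)) (.n (.n (.l 19) (.n (.n (.l 30) (.l 12)) (.n (.n (.n (.l 45)
  (.l 12)) (.n (.n (.n (.n (.l 47) (.l 47)) (.l 42)) (.n (.l 45) (.n (.l 18) (.n (.l 11) .f))))
  (.l 39))) (.l 33)))) (.n (.l 19) (.n (.n (.l 33) (.n (.n (.l 39) (.n (.n (.l 46) (.n (.n (.l 14)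
  .f) (.l 35))) (.n (.n (.l 45) (.l 46)) (.l 43)))) (.n (.l 8) (.l 45)))) (.n (.l 8) (.l
  30)))))))) (.n (.n (.n (.n (.n (.l 42) (.l 1)) (.l 10)) (.n (.n (.l 24) (.n (.n (.l 30) (.n (.n
  (.l 39) (.n (.n (.n (.l 47) (.n (.l 35) .f)) (.n (.l 46) (.l 20))) (.n (.l 16) (.n (.n .f (.l
  35)) (.l 20))))) (.n (.n (.n (.n (.l 47) (.n (.l 35) .f)) (.l 25)) (.n (.n (.l 35) (.l 46)) (.n
  (.n .f (.l 35)) (.l 47)))) (.l 45)))) (.n (.n (.n (.l 45) (.n (.n (.n (.l 47) (.n (.l 35) .f))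
  (.l 31)) (.n (.n (.l 35) (.l 46)) (.n (.n .f (.l 35)) (.l 29))))) (.n (.n (.n (.l 43) (.n (.l
  46) (.l 45))) (.n (.n (.l 8) (.n .f (.l 14))) (.l 46))) (.l 39))) (.l 33)))) (.n (.l 24) (.n (.n
  (.n (.n (.n (.n (.l 46) (.l 16)) (.n (.n (.n (.l 32) .f) (.l 47)) (.l 43))) (.l 20)) (.n (.l 23)
  (.n (.n (.l 43) (.n (.l 47) (.n .f (.l 32)))) (.n (.l 0) (.l 46))))) (.l 42)) (.n (.l 8) (.n (.n
  (.n (.n (.l 43) (.n (.l 47) (.n .f (.l 32)))) (.n (.l 0) (.l 46))) (.l 23)) (.n (.l 20) (.n (.n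
  (.l 46) (.l 16)) (.n (.n (.n (.l 32) .f) (.l 47)) (.l 43)))))))))) (.n (.n (.n (.n (.n (.n (.n
  (.n (.n (.l 43) (.n (.l 47) (.n .f (.l 32)))) (.n (.l 16) (.l 46))) (.l 20)) (.n (.l 23) (.n (.n
  (.l 46) (.l 31)) (.n (.n (.n (.l 32) .f) (.l 47)) (.l 43))))) (.l 8)) (.n (.l 42) (.n (.n (.n
  (.n (.l 46) (.l 25)) (.n (.n (.n (.l 32) .f) (.l 47)) (.l 43))) (.l 23)) (.n (.l 20) (.n (.n (.l
  43) (.n (.l 47) (.n .f (.l 32)))) (.n (.l 16) (.l 46))))))) (.l 24)) (.n (.n (.n (.l 33) (.n (.n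
  (.l 39) (.n (.n (.l 46) (.n (.n (.l 14) .f) (.l 8))) (.n (.n (.l 45) (.l 46)) (.l 43)))) (.n (.l
  1) (.l 45)))) (.n (.l 1) (.l 30))) (.l 24))) (.n (.l 3) (.n (.l 19) (.l 42))))) (.l 18)))) (.n
  (.n (.n (.l 18) (.n (.n (.n (.n (.l 42) (.l 19)) (.l 3)) (.n (.n (.l 24) (.n (.n (.l 30) (.l 1))
  (.n (.n (.n (.l 45) (.l 1)) (.n (.n (.n (.l 43) (.n (.l 46) (.l 45))) (.n (.n (.l 8) (.n .f (.l
  14))) (.l 46))) (.l 39))) (.l 33)))) (.n (.l 24) (.n (.n (.n (.n (.n (.n (.l 46) (.l 16)) (.n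
  (.n (.n (.l 32) .f) (.l 47)) (.l 43))) (.l 20)) (.n (.l 23) (.n (.n (.l 43) (.n (.l 47) (.n .f
  (.l 32)))) (.n (.l 25) (.l 46))))) (.l 42)) (.n (.l 8) (.n (.n (.n (.n (.l 43) (.n (.l 47) (.n
  .f (.l 32)))) (.n (.l 31) (.l 46))) (.l 23)) (.n (.l 20) (.n (.n (.l 46) (.l 16)) (.n (.n (.n
  (.l 32) .f) (.l 47)) (.l 43)))))))))) (.n (.n (.n (.n (.n (.n (.n (.n (.n (.l 43) (.n (.l 47)
  (.n .f (.l 32)))) (.n (.l 16) (.l 46))) (.l 20)) (.n (.l 23) (.n (.n (.l 46) (.l 0)) (.n (.n (.n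
  (.l 32) .f) (.l 47)) (.l 43))))) (.l 8)) (.n (.l 42) (.n (.n (.n (.n (.l 46) (.l 0)) (.n (.n (.n
  (.l 32) .f) (.l 47)) (.l 43))) (.l 23)) (.n (.l 20) (.n (.n (.l 43) (.n (.l 47) (.n .f (.l
  32)))) (.n (.l 16) (.l 46))))))) (.l 24)) (.n (.n (.n (.l 33) (.n (.n (.l 39) (.n (.n (.l 46)
  (.n (.n (.l 14) .f) (.l 8))) (.n (.n (.l 45) (.l 46)) (.l 43)))) (.n (.n (.n (.n (.l 29) (.n (.l
  35) .f)) (.n (.l 46) (.l 35))) (.n (.l 31) (.n (.n .f (.l 35)) (.l 47)))) (.l 45)))) (.n (.n (.n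
  (.l 45) (.n (.n (.n (.l 47) (.n (.l 35) .f)) (.n (.l 46) (.l 35))) (.n (.l 25) (.n (.n .f (.l
  35)) (.l 47))))) (.n (.n (.n (.n (.l 20) (.n (.l 35) .f)) (.l 16)) (.n (.n (.l 20) (.l 46)) (.n
  (.n .f (.l 35)) (.l 47)))) (.l 39))) (.l 30))) (.l 24))) (.n (.l 10) (.n (.l 1) (.l 42)))))) (.n
  (.n (.n (.n (.n (.n (.n (.l 30) (.l 8)) (.n (.n (.n (.l 45) (.l 8)) (.n (.n (.n (.l 43) (.n (.l
  46) (.l 45))) (.n (.n (.l 35) (.n .f (.l 14))) (.l 46))) (.l 39))) (.l 33))) (.l 19)) (.n (.n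
  (.n (.l 33) (.n (.n (.l 39) (.n (.n (.n (.n .f (.l 11)) (.l 18)) (.l 45)) (.n (.l 42) (.n (.l
  47) (.l 47))))) (.n (.l 12) (.l 45)))) (.n (.l 12) (.l 30))) (.l 19))) (.n (.l 42) (.n (.l 24)
  (.n (.n (.n (.n (.n (.n (.n (.n .f (.l 11)) (.l 18)) (.l 16)) (.n (.l 28) (.n (.l 37) (.n (.l
  11) .f)))) (.l 20)) (.n (.l 23) (.n (.n (.l 46) (.n (.n (.l 14) .f) (.l 25))) (.n (.n (.l 31)
  (.n .f (.l 14))) (.l 43))))) (.n (.n (.l 39) (.n (.n (.n (.n .f (.l 11)) (.l 18)) (.l 45)) (.n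
  (.l 20) (.n (.l 47) (.l 47))))) (.n (.l 8) (.l 45)))) (.n (.l 8) (.n (.n (.n (.n (.l 46) (.n (.n
  (.l 14) .f) (.l 31))) (.n (.n (.l 25) (.n .f (.l 14))) (.l 43))) (.l 23)) (.n (.l 20) (.n (.n
  (.n (.n .f (.l 11)) (.l 18)) (.l 16)) (.n (.n (.n (.l 32) .f) (.l 37)) (.n (.l 47) (.n (.l 11)
  .f))))))))))) (.n (.n (.l 22) (.n (.n (.n (.l 33) (.n (.n (.l 39) (.n (.n (.l 46) (.n (.n (.l
  14) .f) (.l 8))) (.n (.n (.l 45) (.l 46)) (.l 43)))) (.n (.l 12) (.l 45)))) (.n (.l 12) (.l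
  30))) (.n (.n (.l 30) (.l 5)) (.n (.n (.n (.l 45) (.l 5)) (.n (.n (.n (.n (.l 47) (.l 47)) (.l
  16)) (.n (.l 45) (.n (.l 21) (.n (.l 11) .f)))) (.l 39))) (.l 33))))) (.n (.n (.n (.n (.n (.n
  (.n (.n (.l 43) (.n (.n (.l 14) .f) (.l 28))) (.n (.n (.n (.l 32) .f) (.n .f (.l 14))) (.l 46)))
  (.l 20)) (.n (.l 23) (.n (.n (.n (.n .f (.l 11)) (.l 37)) (.l 31)) (.n (.l 17) (.n (.l 21) (.n
  (.l 11) .f)))))) (.n (.n (.l 39) (.n (.n (.l 46) (.n (.n (.l 14) .f) (.l 22))) (.n (.n (.l 45)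
  (.l 46)) (.l 43)))) (.n (.l 5) (.l 45)))) (.n (.l 5) (.n (.n (.n (.n (.n (.n .f (.l 11)) (.l
  37)) (.l 25)) (.n (.l 17) (.n (.l 21) (.n (.l 11) .f)))) (.l 23)) (.n (.l 20) (.n (.n (.l 43)
  (.n (.n (.l 14) .f) (.l 22))) (.n (.n (.l 28) (.n .f (.l 14))) (.l 43))))))) (.l 42)) (.l 27))))
  (.l 36))) (.n (.n (.n (.n (.n (.n (.l 24) (.n (.n (.l 33) (.n (.n (.l 39) (.n (.n (.l 46) (.n
  (.n (.l 14) .f) (.l 2))) (.n (.n (.l 45) (.l 46)) (.l 43)))) (.n (.l 13) (.l 45)))) (.n (.l 13)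
  (.l 30)))) (.l 3)) (.n (.n (.l 27) (.l 9)) (.n (.n (.n (.l 30) (.l 13)) (.n (.n (.n (.l 45) (.l
  13)) (.n (.n (.n (.n (.l 47) (.l 47)) (.l 42)) (.n (.l 45) (.n (.l 15) (.n (.l 11) .f)))) (.l
  39))) (.l 33))) (.l 9)))) (.n (.n (.n (.l 6) (.n (.n (.l 33) (.n (.n (.l 39) (.n (.n (.n (.n .f
  (.l 11)) (.l 15)) (.l 45)) (.n (.l 42) (.n (.l 47) (.l 47))))) (.n (.l 13) (.l 45)))) (.n (.l
  13) (.l 30)))) (.n (.l 6) (.l 27))) (.n (.l 10) (.n (.n (.n (.l 30) (.l 13)) (.n (.n (.n (.l 45)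
  (.l 13)) (.n (.n (.n (.l 43) (.n (.l 46) (.l 45))) (.n (.n (.l 2) (.n .f (.l 14))) (.l 46))) (.l
  39))) (.l 33))) (.l 24))))) (.l 12)) (.n (.l 21) (.n (.n (.n (.l 27) (.n (.n (.n (.l 33) (.n (.n
  (.l 39) (.n (.n (.n (.n .f (.l 11)) (.l 37)) (.l 45)) (.n (.l 1) (.n (.l 47) (.l 47))))) (.n (.n
  (.n (.n (.l 47) (.n (.l 35) .f)) (.l 29)) (.n (.n (.l 35) (.l 46)) (.n (.n .f (.l 35)) (.l
  31)))) (.l 45)))) (.n (.n (.n (.l 45) (.n (.n (.n (.l 47) (.n (.l 35) .f)) (.n (.l 46) (.l 25)))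
  (.n (.n (.l 35) (.l 46)) (.n (.n .f (.l 35)) (.l 25))))) (.n (.n (.n (.n (.l 22) (.n (.l 35)
  .f)) (.l 20)) (.n (.n (.l 22) (.l 46)) (.n (.n .f (.l 35)) (.l 47)))) (.l 39))) (.l 30))) (.n
  (.n (.n (.n (.n (.n (.l 43) (.n (.l 47) (.n .f (.l 32)))) (.n (.l 1) (.l 46))) (.l 20)) (.n (.l
  23) (.n (.n (.l 46) (.l 17)) (.n (.n (.n (.l 32) .f) (.l 47)) (.l 43))))) (.l 5)) (.n (.l 42)
  (.n (.n (.n (.n (.l 46) (.l 17)) (.n (.n (.n (.l 32) .f) (.l 47)) (.l 43))) (.l 23)) (.n (.l 20)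
  (.n (.n (.l 43) (.n (.l 47) (.n .f (.l 32)))) (.n (.l 1) (.l 46))))))))) (.n (.l 42) (.l 22)))
  (.n (.n (.l 22) (.l 42)) (.n (.n (.n (.n (.n (.n (.n (.n (.l 46) (.l 4)) (.n (.n (.n (.l 32) .f)
  (.l 47)) (.l 43))) (.l 20)) (.n (.l 23) (.n (.n (.l 43) (.n (.l 47) (.n .f (.l 32)))) (.n (.l
  17) (.l 46))))) (.l 42)) (.n (.l 5) (.n (.n (.n (.n (.l 43) (.n (.l 47) (.n .f (.l 32)))) (.n
  (.l 17) (.l 46))) (.l 23)) (.n (.l 20) (.n (.n (.l 46) (.l 28)) (.n (.n (.n (.l 32) .f) (.l 47))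
  (.l 43))))))) (.n (.n (.l 30) (.l 0)) (.n (.n (.n (.l 45) (.l 0)) (.n (.n (.n (.n (.l 47) (.l
  47)) (.l 4)) (.n (.l 45) (.n (.l 3) (.n (.l 11) .f)))) (.l 39))) (.l 33)))) (.l 27)))))))

/-- checking a certificate -/
def chk : T → ℕ → ℕ → Bool
  | .l d, k, m => Nat.blt d 48 && walk m k (rv d) d 16 d
  | .f, k, m => k == 16 && few m
  | .n a b, k, m => chk a (k + 1) m && chk b (k + 1) (m + 2 ^ k)

set_option maxRecDepth 100000 in
theorem chk_ok : chk cert 0 0 = true := by decide +kernel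

/-! ### Soundness -/

theorem testBit_of_mod {M k m v : ℕ} (h : M % 2 ^ k = m) (hv : v < k) :
    M.testBit v = m.testBit v := by
  rw [← h, Nat.testBit_mod_two_pow]
  simp [hv]

theorem nx_congr {M m e : ℕ} (h : M.testBit (rv e / 3) = m.testBit (rv e / 3)) :
    nx M e = nx m e := by
  unfold nx
  rw [h]

theorem walk_sound {M m k t d0 : ℕ} (h : M % 2 ^ k = m) :
    ∀ f e, walk m k t d0 f e = true → ∃ j, (nx M)^[j] e = t
  | 0, e, hw => by simp [walk] at hw
  | f + 1, e, hw => by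
      unfold walk at hw
      by_cases h1 : rv e / 3 < k
      · have h1' : Nat.blt (rv e / 3) k = true := by simpa [Nat.blt_eq] using h1
        have h2 : nx M e = nx m e := nx_congr (testBit_of_mod h h1)
        rw [h1', cond_true] at hw
        by_cases h3 : nx m e = t
        · exact ⟨1, by rw [Function.iterate_one, h2, h3]⟩
        · have h3' : (nx m e == t) = false := by simpa using h3
          rw [h3', cond_false] at hw
          by_cases h4 : nx m e = d0
          · have h4' : (nx m e == d0) = true := by simpa using h4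
            rw [h4', cond_true] at hw
            exact absurd hw (by simp)
          · have h4' : (nx m e == d0) = false := by simpa using h4
            rw [h4', cond_false] at hw
            obtain ⟨j, hj⟩ := walk_sound h f (nx m e) hw
            exact ⟨j + 1, by rw [Function.iterate_succ_apply, h2, hj]⟩
      · have h1' : Nat.blt (rv e / 3) k = false := by
          rw [Bool.eq_false_iff]; intro hh; exact h1 (by simpa [Nat.blt_eq] using hh)
        rw [h1', cond_false] at hw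
        exact absurd hw (by simp)

theorem mw_sound {m d0 : ℕ} : ∀ f e, mw m d0 f e = false → ∃ j, (nx m)^[j] e < d0
  | 0, e, h => by simp [mw] at h
  | f + 1, e, h => by
      unfold mw at h
      by_cases h3 : nx m e = d0
      · have h3' : (nx m e == d0) = true := by simpa using h3
        rw [h3', cond_true] at h
        exact absurd h (by simp)
      · have h3' : (nx m e == d0) = false := by simpa using h3
        rw [h3', cond_false] at h
        by_cases h4 : nx m e < d0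
        · exact ⟨1, by rwa [Function.iterate_one]⟩
        · have h4' : Nat.blt (nx m e) d0 = false := by
            rw [Bool.eq_false_iff]; intro hh; exact h4 (by simpa [Nat.blt_eq] using hh)
          rw [h4', cond_false] at h
          obtain ⟨j, hj⟩ := mw_sound f (nx m e) h
          exact ⟨j + 1, by rwa [Function.iterate_succ_apply]⟩

/-- the alternative established for every mask -/
def Alt (M : ℕ) : Prop := (∃ d < 48, ∃ j, (nx M)^[j] d = rv d) ∨ few M = true

theorem chk_sound : ∀ (t : T) (k m : ℕ), chk t k m = true → ∀ M < 2 ^ 16,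
    M % 2 ^ k = m → Alt M
  | .l d, k, m, h, M, _, hM => by
      rw [chk, Bool.and_eq_true] at h
      obtain ⟨j, hj⟩ := walk_sound hM 16 d h.2
      exact Or.inl ⟨d, by simpa [Nat.blt_eq] using h.1, j, hj⟩
  | .f, k, m, h, M, hM16, hM => by
      rw [chk, Bool.and_eq_true] at h
      have hk : k = 16 := by simpa using h.1
      subst hk
      rw [Nat.mod_eq_of_lt hM16] at hM
      subst hM
      exact Or.inr h.2
  | .n a b, k, m, h, M, hM16, hM => by
      rw [chk, Bool.and_eq_true] at h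
      have h2 : M % 2 ^ (k + 1) = m ∨ M % 2 ^ (k + 1) = m + 2 ^ k := by
        have h3 := Nat.mod_pow_succ (b := 2) (k := k) (x := M)
        have h4 : M / 2 ^ k % 2 = 0 ∨ M / 2 ^ k % 2 = 1 := by omega
        rcases h4 with h4 | h4
        · left; rw [h3, h4, hM]; ring
        · right; rw [h3, h4, hM]; ring
      rcases h2 with h2 | h2
      · exact chk_sound a (k + 1) m h.1 M hM16 h2
      · exact chk_sound b (k + 1) (m + 2 ^ k) h.2 M hM16 h2

/-! ### Every rotation system is given by a sign vector -/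

theorem three_cycle : ∀ f : Fin 3 → Fin 3, Function.Injective f → (∀ i, f i ≠ i) →
    (∀ i, f i = i + 1) ∨ (∀ i, f i = i + 2) := by
  unfold Function.Injective
  decide

theorem rotation_at (R : RotationSystem G) (v : Fin 16) :
    (∀ i, R.next (dt (mk v i)) = dt (mk v (i + 1))) ∨
      (∀ i, R.next (dt (mk v i)) = dt (mk v (i + 2))) := by
  have h1 : ∀ i : Fin 3, ∃ j : Fin 3, R.next (dt (mk v i)) = dt (mk v j) := by
    intro i
    obtain ⟨e, he⟩ := dt_surjective (R.next (dt (mk v i)))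
    have h2 : src e = v := by
      have h3 := R.fst_next (dt (mk v i))
      rw [← he, fst_dt, fst_dt, src_mk] at h3
      exact h3
    refine ⟨idx e, ?_⟩
    rw [← h2, mk_src_idx]
    rw [h2, he]
  choose f hf using h1
  have hmk : ∀ i j : Fin 3, mk v i = mk v j → i = j := by
    intro i j h
    rw [← idx_mk v i, h, idx_mk]
  have hinj : Function.Injective f := by
    intro i j hij
    have h2 : R.next (dt (mk v i)) = R.next (dt (mk v j)) := by rw [hf, hf, hij]
    exact hmk _ _ (dt_injective (R.next.injective h2))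
  have hne : ∀ i, f i ≠ i := by
    intro i hi
    have h2 : Function.IsFixedPt R.next (dt (mk v i)) := by
      show R.next (dt (mk v i)) = dt (mk v i)
      rw [hf, hi]
    have h3 := (R.single_cycle (dt (mk v i)) (dt (mk v (i + 1)))
      (by rw [fst_dt, fst_dt, src_mk, src_mk])).eq_of_left h2
    have h4 := hmk _ _ (dt_injective h3)
    have h5 : ∀ i : Fin 3, i ≠ i + 1 := by decide
    exact h5 i h4
  rcases three_cycle f hinj hne with h | h
  · left; intro i; rw [hf, h]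
  · right; intro i; rw [hf, h]

theorem exists_sign (R : RotationSystem G) :
    ∃ s : Fin 16 → Bool, ∀ d, R.face (dt d) = dt (nxF s d) := by
  classical
  refine ⟨fun v => decide (∀ i, R.next (dt (mk v i)) = dt (mk v (i + 1))), fun d => ?_⟩
  have h1 : R.face (dt d) = R.next (dt (rvF d)) := by
    show R.next ((dt d).symm) = _
    rw [dt_symm]
  have h2 : dt (rvF d) = dt (mk (src (rvF d)) (idx (rvF d))) := by rw [mk_src_idx]
  rw [h1, h2]
  unfold nxF rotF
  by_cases h : ∀ i, R.next (dt (mk (src (rvF d)) i)) = dt (mk (src (rvF d)) (i + 1))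
  · simp only [h, implies_true, decide_true, cond_true]
  · have h3 : ∀ i, R.next (dt (mk (src (rvF d)) i)) = dt (mk (src (rvF d)) (i + 2)) :=
      (rotation_at R _).resolve_left h
    simp only [h, decide_false, cond_false]
    exact h3 _

theorem exists_mask (R : RotationSystem G) :
    ∃ M < 2 ^ 16, ∀ d : Fin 48, ∃ h : nx M d.1 < 48, R.face (dt d) = dt ⟨nx M d.1, h⟩ := by
  obtain ⟨s, hs⟩ := exists_sign R
  refine ⟨Nat.ofBits s, Nat.ofBits_lt_two_pow s, fun d => ?_⟩
  have h1 : (nxF s d).1 = nx (Nat.ofBits s) d.1 :=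
    nxF_val s _ (fun v => Nat.testBit_ofBits_lt s v.1 v.2) d
  refine ⟨h1 ▸ (nxF s d).2, ?_⟩
  rw [hs]
  congr 1
  exact Fin.ext h1

theorem face_iterate {R : RotationSystem G} {M : ℕ}
    (h : ∀ d : Fin 48, ∃ h : nx M d.1 < 48, R.face (dt d) = dt ⟨nx M d.1, h⟩) (j : ℕ) :
    ∀ d : Fin 48, ∃ h : (nx M)^[j] d.1 < 48, (R.face ^ j) (dt d) = dt ⟨(nx M)^[j] d.1, h⟩ := by
  induction j with
  | zero => intro d; exact ⟨d.2, rfl⟩
  | succ j ih =>
    intro d
    obtain ⟨h1, h2⟩ := h d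
    obtain ⟨h3, h4⟩ := ih ⟨nx M d.1, h1⟩
    refine ⟨by rw [Function.iterate_succ_apply]; exact h3, ?_⟩
    rw [pow_succ, Equiv.Perm.mul_apply, h2, h4]
    congr 1

theorem repeats_of_walk {R : RotationSystem G} {M : ℕ}
    (h : ∀ d : Fin 48, ∃ h : nx M d.1 < 48, R.face (dt d) = dt ⟨nx M d.1, h⟩)
    {d : ℕ} (hd : d < 48) {j : ℕ} (hj : (nx M)^[j] d = rv d) : R.RepeatsEdge := by
  obtain ⟨h1, h2⟩ := face_iterate h j ⟨d, hd⟩
  refine ⟨dt ⟨d, hd⟩, (j : ℤ), ?_⟩
  rw [zpow_natCast, h2, dt_symm]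
  congr 1
  apply Fin.ext
  show (nx M)^[j] d = _
  rw [hj]
  exact rv_eq ⟨d, hd⟩

theorem numFaces_le {R : RotationSystem G} {M : ℕ}
    (h : ∀ d : Fin 48, ∃ h : nx M d.1 < 48, R.face (dt d) = dt ⟨nx M d.1, h⟩) :
    R.numFaces ≤ (List.range 48).countP fun d => mw M d 48 d := by
  classical
  have key : ∀ n : ℕ, ∀ hn : n < 48, ∃ e : Fin 48, mw M e.1 48 e.1 = true ∧
      R.face.SameCycle (dt ⟨n, hn⟩) (dt e) := by
    intro n
    induction n using Nat.strong_induction_on with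
    | _ n ih =>
      intro hn
      by_cases h1 : mw M n 48 n = true
      · exact ⟨⟨n, hn⟩, h1, Equiv.Perm.SameCycle.refl _ _⟩
      · obtain ⟨j, hj⟩ := mw_sound 48 n (by simpa using h1)
        obtain ⟨h2, h3⟩ := face_iterate h j ⟨n, hn⟩
        obtain ⟨e, he1, he2⟩ := ih ((nx M)^[j] n) hj h2
        refine ⟨e, he1, Equiv.Perm.SameCycle.trans ⟨(j : ℤ), ?_⟩ he2⟩
        rw [zpow_natCast]
        exact h3
  let S : Finset (Fin 48) := Finset.univ.filter fun e => mw M e.1 48 e.1 = true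
  have hsurj : Function.Surjective
      (fun e : S => (Quotient.mk (Equiv.Perm.SameCycle.setoid R.face) (dt e.1))) := by
    intro q
    induction q using Quotient.inductionOn with
    | h x =>
      obtain ⟨d, rfl⟩ := dt_surjective x
      obtain ⟨e, he1, he2⟩ := key d.1 d.2
      refine ⟨⟨e, by simp [S, he1]⟩, ?_⟩
      exact Quotient.sound he2.symm
  have h1 : R.numFaces ≤ Nat.card S := Nat.card_le_card_of_surjective _ hsurj
  refine h1.trans ?_
  rw [Nat.card_eq_fintype_card, Fintype.card_coe]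
  have h2 : S.card = ((List.finRange 48).filter fun e => mw M e.1 48 e.1).length := by
    rw [← List.toFinset_card_of_nodup ((List.nodup_finRange 48).filter _)]
    congr 1
    ext e
    simp [S]
  rw [h2, ← List.countP_eq_length_filter]
  have h3 : List.range 48 = (List.finRange 48).map Fin.val := by simp
  rw [h3, List.countP_map]
  exact le_of_eq rfl

theorem repeats_or_few (R : RotationSystem G) : R.RepeatsEdge ∨ R.numFaces ≤ 6 := by
  obtain ⟨M, hM, h⟩ := exists_mask R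
  rcases chk_sound cert 0 0 chk_ok M hM (by simp [Nat.mod_one]) with ⟨d, hd, j, hj⟩ | h1
  · exact Or.inl (repeats_of_walk h hd hj)
  · right
    refine (numFaces_le h).trans ?_
    simpa [few] using h1

/-! ### An embedding in the torus -/

/-- a sign vector -/
def s0 (v : Fin 16) : Bool := (9637 : ℕ).testBit v.1

/-- its rotation -/
def P0 : Equiv.Perm (Fin 48) where
  toFun := rotF s0
  invFun d := rotF s0 (rotF s0 d)
  left_inv := by unfold Function.LeftInverse; decide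
  right_inv := by unfold Function.RightInverse Function.LeftInverse; decide

/-- numbering of the darts -/
noncomputable def eD : Fin 48 ≃ G.Dart := Equiv.ofBijective dt ⟨dt_injective, dt_surjective⟩

theorem eD_apply (d : Fin 48) : eD d = dt d := rfl

/-- an embedding in the torus -/
noncomputable def R0 : RotationSystem G where
  next := eD.permCongr P0
  fst_next := by
    intro x
    obtain ⟨a, rfl⟩ := eD.surjective x
    rw [Equiv.permCongr_apply, Equiv.symm_apply_apply]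
    have h : ∀ a : Fin 48, src (rotF s0 a) = src a := by decide
    exact h a
  single_cycle := by
    intro x y hxy
    obtain ⟨a, rfl⟩ := eD.surjective x
    obtain ⟨b, rfl⟩ := eD.surjective y
    have h : ∀ a b : Fin 48, src a = src b → b = a ∨ b = rotF s0 a ∨ b = rotF s0 (rotF s0 a) := by
      decide
    have hP : ∀ a, eD.permCongr P0 (eD a) = eD (rotF s0 a) := by
      intro a
      rw [Equiv.permCongr_apply, Equiv.symm_apply_apply]
      rfl
    rcases h a b hxy with h1 | h1 | h1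
    · rw [h1]
    · refine ⟨1, ?_⟩
      rw [zpow_one, hP, h1]
    · refine ⟨2, ?_⟩
      rw [zpow_two, Equiv.Perm.mul_apply, hP, hP, h1]

theorem R0_face (d : Fin 48) : R0.face (dt d) = dt (nxF s0 d) := by
  have h1 : R0.face (dt d) = eD.permCongr P0 (dt (rvF d)) := by
    show R0.next ((dt d).symm) = _
    rw [dt_symm]
    rfl
  rw [h1, ← eD_apply, Equiv.permCongr_apply, Equiv.symm_apply_apply]
  rfl

theorem R0_mask : ∀ d : Fin 48, ∃ h : nx 9637 d.1 < 48, R0.face (dt d) = dt ⟨nx 9637 d.1, h⟩ := by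
  intro d
  have h1 : (nxF s0 d).1 = nx 9637 d.1 := nxF_val s0 _ (fun v => rfl) d
  refine ⟨h1 ▸ (nxF s0 d).2, ?_⟩
  rw [R0_face]
  congr 1
  exact Fin.ext h1

/-- labels of the faces -/
def lab : Fin 48 → Fin 8 :=
  ![0, 1, 2, 1, 3, 0, 2, 1, 4, 1, 4, 3, 0, 2, 2, 0, 2, 5, 2, 5, 4, 3, 0, 5, 3, 5, 6, 5, 6, 4, 3, 6,
    7, 6, 7, 4, 4, 2, 3, 7, 4, 2, 2, 7, 2, 3, 2, 7]

theorem R0_numFaces : R0.numFaces = 8 := by
  apply le_antisymm
  · refine (numFaces_le R0_mask).trans ?_
    have h : ((List.range 48).countP fun d => mw 9637 d 48 d) = 8 := by decide +kernel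
    exact le_of_eq h
  · let L : G.Dart → Fin 8 := fun x => lab (eD.symm x)
    have hL : ∀ x, L (R0.face x) = L x := by
      intro x
      obtain ⟨a, rfl⟩ := eD.surjective x
      have h : ∀ a : Fin 48, lab (nxF s0 a) = lab a := by decide
      show lab (eD.symm (R0.face (eD a))) = lab (eD.symm (eD a))
      rw [eD_apply, R0_face, ← eD_apply, ← eD_apply, Equiv.symm_apply_apply,
        Equiv.symm_apply_apply]
      exact h a
    have hLn : ∀ (n : ℕ) (x : G.Dart), L ((R0.face ^ n) x) = L x := by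
      intro n
      induction n with
      | zero => intro x; rfl
      | succ n ih => intro x; rw [pow_succ, Equiv.Perm.mul_apply, ih, hL]
    have hLz : ∀ (n : ℤ) (x : G.Dart), L ((R0.face ^ n) x) = L x := by
      intro n x
      rcases n with n | n
      · exact hLn n x
      · rw [zpow_negSucc]
        have h1 := hLn (n + 1) ((R0.face ^ (n + 1))⁻¹ x)
        rw [← Equiv.Perm.mul_apply, mul_inv_cancel] at h1
        exact h1.symm
    let Q : Quotient (Equiv.Perm.SameCycle.setoid R0.face) → Fin 8 :=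
      Quotient.lift L (by
        intro a b hab
        obtain ⟨i, hi⟩ := hab
        rw [← hi, hLz])
    have hQ : Function.Surjective Q := by
      intro c
      have h : ∀ c : Fin 8, ∃ a : Fin 48, lab a = c := by decide
      obtain ⟨a, ha⟩ := h c
      refine ⟨Quotient.mk _ (eD a), ?_⟩
      show lab (eD.symm (eD a)) = c
      rw [Equiv.symm_apply_apply, ha]
    have h1 := Nat.card_le_card_of_surjective Q hQ
    rwa [Nat.card_eq_fintype_card, Fintype.card_fin] at h1

theorem card_edges : Nat.card G.edgeSet = 24 := by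
  rw [Nat.card_eq_fintype_card, ← SimpleGraph.edgeFinset_card]
  have h := G.sum_degrees_eq_twice_card_edges
  have h2 : ∑ v, G.degree v = 48 := by decide +kernel
  omega

theorem R0_genus : R0.IsGenus 1 := by
  unfold RotationSystem.IsGenus
  rw [R0_numFaces, card_edges, Nat.card_eq_fintype_card, Fintype.card_fin]

theorem genus_le : genus G ≤ 1 := Nat.sInf_le ⟨R0, R0_genus⟩

theorem main (R : RotationSystem G) (h : R.IsGenus (genus G)) : R.RepeatsEdge := by
  rcases repeats_or_few R with h1 | h1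
  · exact h1
  · exfalso
    unfold RotationSystem.IsGenus at h
    rw [card_edges, Nat.card_eq_fintype_card, Fintype.card_fin] at h
    have := genus_le
    omega

/-! ### Connectivity -/

/-- the dart leaves the set (only vertices below `k` are looked at) -/
def cutAt (k m d : ℕ) : Bool :=
  (Nat.blt (d / 3) k && Nat.blt (rv d / 3) k) && (m.testBit (d / 3) && !m.testBit (rv d / 3))

/-- number of darts leaving the set -/
def cutN (k m : ℕ) : ℕ := (List.range 48).countP (cutAt k m)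

/-- size of the set -/
def pop (m : ℕ) : ℕ := (List.range 16).countP fun v => m.testBit v

/-- what is checked -/
def cfin (m : ℕ) : Bool := (Nat.ble (pop m) 1 || Nat.ble 15 (pop m)) &&
  (Nat.ble 3 (cutN 16 m) || (pop m == 0 || pop m == 16))

/-- the case analysis -/
def cdfs : ℕ → ℕ → ℕ → Bool
  | 0, k, m => Nat.ble 4 (cutN k m) || (k == 16 && cfin m)
  | f + 1, k, m => Nat.ble 4 (cutN k m) || (cdfs f (k + 1) m && cdfs f (k + 1) (m + 2 ^ k))

theorem cdfs_ok : cdfs 16 0 0 = true := by decide +kernel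

theorem cutN_le {k m M : ℕ} (h : M % 2 ^ k = m) : cutN k m ≤ cutN 48 M := by
  unfold cutN
  apply List.countP_mono_left
  intro d hd h1
  have hd' : d < 48 := List.mem_range.mp hd
  have h3 : rv d < 48 := by
    have := rv_eq ⟨d, hd'⟩
    simp only at this
    rw [this]
    exact (rvF ⟨d, hd'⟩).2
  unfold cutAt at h1 ⊢
  simp only [Bool.and_eq_true, Nat.blt_eq, Bool.not_eq_true'] at h1 ⊢
  obtain ⟨⟨h4, h5⟩, h6, h7⟩ := h1
  rw [testBit_of_mod h h4, testBit_of_mod h h5]
  exact ⟨⟨by omega, by omega⟩, h6, h7⟩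

theorem cdfs_sound : ∀ (f k m : ℕ), cdfs f k m = true → ∀ M < 2 ^ 16, M % 2 ^ k = m →
    4 ≤ cutN 48 M ∨ ((pop M ≤ 1 ∨ 15 ≤ pop M) ∧ (3 ≤ cutN 48 M ∨ pop M = 0 ∨ pop M = 16))
  | 0, k, m, h, M, hM16, hM => by
      rw [cdfs, Bool.or_eq_true] at h
      rcases h with h | h
      · left
        exact (Nat.le_of_ble_eq_true h).trans (cutN_le hM)
      · right
        rw [Bool.and_eq_true] at h
        have hk : k = 16 := by simpa using h.1
        subst hk
        have h1 := h.2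
        rw [Nat.mod_eq_of_lt hM16] at hM
        subst hM
        unfold cfin at h1
        simp only [Bool.and_eq_true, Bool.or_eq_true, Nat.ble_eq, beq_iff_eq] at h1
        refine ⟨h1.1, ?_⟩
        rcases h1.2 with h2 | h2
        · left
          exact h2.trans (cutN_le (k := 16) (Nat.mod_eq_of_lt hM16))
        · right
          exact h2
  | f + 1, k, m, h, M, hM16, hM => by
      rw [cdfs, Bool.or_eq_true] at h
      rcases h with h | h
      · left
        exact (Nat.le_of_ble_eq_true h).trans (cutN_le hM)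
      rw [Bool.and_eq_true] at h
      have h2 : M % 2 ^ (k + 1) = m ∨ M % 2 ^ (k + 1) = m + 2 ^ k := by
        have h3 := Nat.mod_pow_succ (b := 2) (k := k) (x := M)
        have h4 : M / 2 ^ k % 2 = 0 ∨ M / 2 ^ k % 2 = 1 := by omega
        rcases h4 with h4 | h4
        · left; rw [h3, h4, hM]; ring
        · right; rw [h3, h4, hM]; ring
      rcases h2 with h2 | h2
      · exact cdfs_sound f (k + 1) m h.1 M hM16 h2
      · exact cdfs_sound f (k + 1) (m + 2 ^ k) h.2 M hM16 h2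

/-- the darts leaving a set -/
def out (S : Finset (Fin 16)) : Finset (Fin 48) :=
  Finset.univ.filter fun d => src d ∈ S ∧ tg d ∉ S

theorem out_card (S : Finset (Fin 16)) :
    4 ≤ (out S).card ∨ ((S.card ≤ 1 ∨ 15 ≤ S.card) ∧ (3 ≤ (out S).card ∨ S.card = 0 ∨
      S.card = 16)) := by
  have hlt : Nat.ofBits (fun v : Fin 16 => decide (v ∈ S)) < 2 ^ 16 := Nat.ofBits_lt_two_pow _
  have h := cdfs_sound 16 0 0 cdfs_ok _ hlt (by simp [Nat.mod_one])
  have hb : ∀ v : Fin 16, (Nat.ofBits (fun v : Fin 16 => decide (v ∈ S))).testBit v.1 =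
      decide (v ∈ S) := fun v => Nat.testBit_ofBits_lt _ v.1 v.2
  generalize Nat.ofBits (fun v : Fin 16 => decide (v ∈ S)) = M at h hb
  have hpop : pop M = S.card := by
    unfold pop
    have h3 : List.range 16 = (List.finRange 16).map Fin.val := by simp
    rw [h3, List.countP_map]
    have h4 : ((fun v => M.testBit v) ∘ Fin.val) = fun v : Fin 16 => decide (v ∈ S) := by
      funext v
      exact hb v
    rw [h4, List.countP_eq_length_filter,
      ← List.toFinset_card_of_nodup ((List.nodup_finRange 16).filter _)]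
    congr 1
    ext e
    simp
  have hcut : cutN 48 M = (out S).card := by
    unfold cutN
    have h3 : List.range 48 = (List.finRange 48).map Fin.val := by simp
    rw [h3, List.countP_map]
    have htg : ∀ d : Fin 48, (rvF d).1 / 3 = (tg d).1 := by decide
    have h4 : (cutAt 48 M ∘ Fin.val) = fun d : Fin 48 => decide (src d ∈ S ∧ tg d ∉ S) := by
      funext d
      have h5 : M.testBit (d.1 / 3) = decide (src d ∈ S) := hb (src d)
      have h6 : M.testBit (rv d.1 / 3) = decide (tg d ∈ S) := by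
        rw [rv_eq, htg]
        exact hb (tg d)
      have h7 : Nat.blt (d.1 / 3) 48 = true := by
        rw [Nat.blt_eq]; have := d.2; omega
      have h8 : Nat.blt (rv d.1 / 3) 48 = true := by
        rw [Nat.blt_eq, rv_eq, htg]; have := (tg d).2; omega
      show cutAt 48 M d.1 = _
      unfold cutAt
      rw [h5, h6, h7, h8]
      by_cases h9 : src d ∈ S <;> by_cases h10 : tg d ∈ S <;> simp [h9, h10]
    rw [h4, List.countP_eq_length_filter,
      ← List.toFinset_card_of_nodup ((List.nodup_finRange 48).filter _)]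
    congr 1
    ext e
    simp [out]
  rwa [hpop, hcut] at h

theorem cyclic_four (S : Finset (Fin 16)) (h1 : 2 ≤ S.card) (h2 : 2 ≤ Sᶜ.card) :
    4 ≤ {p : Fin 16 × Fin 16 | p.1 ∈ S ∧ p.2 ∉ S ∧ G.Adj p.1 p.2}.ncard := by
  have h3 : 4 ≤ (out S).card := by
    rw [Finset.card_compl, Fintype.card_fin] at h2
    rcases out_card S with h | h
    · exact h
    · omega
  refine h3.trans ?_
  rw [← Set.ncard_coe_finset]
  refine Set.ncard_le_ncard_of_injOn (fun d => (src d, tg d)) ?_ ?_ (Set.toFinite _)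
  · intro d hd
    have hd' : src d ∈ S ∧ tg d ∉ S := by simpa [out] using hd
    exact ⟨hd'.1, hd'.2, adj_dt d⟩
  · intro a _ b _ hab
    apply dt_injective
    apply SimpleGraph.Dart.ext
    exact hab

theorem bridgeless (e : Sym2 (Fin 16)) : (G.deleteEdges {e}).Connected := by
  classical
  rw [SimpleGraph.connected_iff_exists_forall_reachable]
  refine ⟨0, ?_⟩
  by_contra hcon
  push Not at hcon
  obtain ⟨w, hw⟩ := hcon
  let S : Finset (Fin 16) := Finset.univ.filter fun v => (G.deleteEdges {e}).Reachable 0 v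
  have h0 : (0 : Fin 16) ∈ S := by simp [S]
  have hwS : w ∉ S := by simpa [S] using hw
  have hc0 : S.card ≠ 0 := Finset.card_ne_zero_of_mem h0
  have hc16 : S.card ≠ 16 := by
    intro h
    have : S = Finset.univ := Finset.eq_univ_of_card S (by rw [h, Fintype.card_fin])
    exact hwS (this ▸ Finset.mem_univ w)
  have h3 : 1 < (out S).card := by
    rcases out_card S with h | h
    · omega
    · omega
  obtain ⟨a, ha, b, hb, hab⟩ := Finset.one_lt_card.mp h3
  have key : ∀ d ∈ out S, s(src d, tg d) = e := by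
    intro d hd
    have hd' : src d ∈ S ∧ tg d ∉ S := by simpa [out] using hd
    by_contra hne
    apply hd'.2
    have h4 : (G.deleteEdges {e}).Adj (src d) (tg d) := by
      rw [SimpleGraph.deleteEdges_adj]
      exact ⟨adj_dt d, hne⟩
    have h5 : (G.deleteEdges {e}).Reachable 0 (src d) := by simpa [S] using hd'.1
    simpa [S] using h5.trans h4.reachable
  have h4 := (key a ha).trans (key b hb).symm
  have ha' : src a ∈ S ∧ tg a ∉ S := by simpa [out] using ha
  have hb' : src b ∈ S ∧ tg b ∉ S := by simpa [out] using hb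
  rw [Sym2.eq_iff] at h4
  rcases h4 with ⟨h5, h6⟩ | ⟨h5, h6⟩
  · apply hab
    apply dt_injective
    apply SimpleGraph.Dart.ext
    exact Prod.ext h5 h6
  · exact hb'.2 (h5 ▸ ha'.1)

theorem cubic (v : Fin 16) : (G.neighborSet v).ncard = 3 := by
  have h : ∀ v : Fin 16, (nbr v).card = 3 := by decide
  have h2 : G.neighborSet v = (nbr v : Set (Fin 16)) := by
    ext w
    rfl
  rw [h2, Set.ncard_coe_finset, h]

/-- There is a bridgeless cubic graph (on sixteen vertices, and even cyclically 4-edge-connected: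
every edge cut with at least two vertices on each side has at least four edges) such that every
embedding in the orientable surface of minimum genus has a face whose boundary walk traverses some
edge twice. -/
theorem result : ∃ (n : ℕ) (G : SimpleGraph (Fin n)),
    (∀ v, (G.neighborSet v).ncard = 3) ∧
    (∀ e : Sym2 (Fin n), (G.deleteEdges {e}).Connected) ∧
    (∀ S : Finset (Fin n), 2 ≤ S.card → 2 ≤ Sᶜ.card →
      4 ≤ {p : Fin n × Fin n | p.1 ∈ S ∧ p.2 ∉ S ∧ G.Adj p.1 p.2}.ncard) ∧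
    (∃ R : RotationSystem G, R.IsGenus (genus G)) ∧
    ∀ R : RotationSystem G, R.IsGenus (genus G) → R.RepeatsEdge :=
  ⟨16, G, cubic, bridgeless, cyclic_four,
    Nat.sInf_mem (s := {g | ∃ R : RotationSystem G, R.IsGenus g}) ⟨1, R0, R0_genus⟩, main⟩

end Pool.Agent.L7h39.NoCircuitEmbedding
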